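import Pool.Agent.KUB.Defs

set_option autoImplicit false

/-! # KUB COEF : the coefficient by the area integral of `|f'|` over the annulus
PROOF. n a_n ρ^(n-1) = (1/2π) ∫ f'(ρ e^{iθ}) e^{-i(n-1)θ} dθ, so 2π n |a_n| ρ^(n-1) ≤ ∫ |f'(ρ e^{iθ})| dθ for 0 < ρ < 1; multiply by ρ, integrate over
1-2/n < ρ < 1-1/n (polar coordinates): 2π n |a_n| ∫ ρ^n dρ ≤ ∫_Om |f'|, ρ^n ≥ (1-2/n)^n ≥ 1/16 for n ≥ 4 (Bernoulli: (1-2/n)^(n/4) ≥ 1/2), π/8 · 3 ≥ 1. -/

open MeasureTheory Metric Set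

namespace KUB

theorem cf_shift {F : ℝ → ENNReal} (hF : Function.Periodic F (2 * Real.pi)) :
    ∫⁻ θ in Ioo (-Real.pi) Real.pi, F θ = ∫⁻ θ in Ioo 0 (2 * Real.pi), F θ := by
  have hT : 0 < 2 * Real.pi := by positivity
  rw [setLIntegral_congr Ioo_ae_eq_Ioc, setLIntegral_congr Ioo_ae_eq_Ioc]
  have : VAddInvariantMeasure (AddSubgroup.zmultiples (2 * Real.pi)) ℝ volume :=
    ⟨fun c s _ => measure_preimage_add _ _ _⟩
  have h1 := isAddFundamentalDomain_Ioc hT (-Real.pi)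
  have h2 := isAddFundamentalDomain_Ioc hT 0
  have e1 : -Real.pi + 2 * Real.pi = Real.pi := by ring
  rw [e1] at h1
  rw [zero_add] at h2
  exact h1.setLIntegral_eq h2 F hF.map_vadd_zmultiples

/-- polar coordinates on an annulus -/
theorem cf_polar {h : ℂ → ENNReal} (hm : Measurable h) {a b : ℝ} (ha : 0 ≤ a) :
    ∫⁻ z in {z : ℂ | a < ‖z‖ ∧ ‖z‖ < b}, h z = ∫⁻ s in Ioo a b,
      ENNReal.ofReal s * ∫⁻ θ in Ioo 0 (2 * Real.pi), h (circleMap 0 s θ) := by
  have hAo : IsOpen {z : ℂ | a < ‖z‖ ∧ ‖z‖ < b} :=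
    (isOpen_lt continuous_const continuous_norm).inter (isOpen_lt continuous_norm continuous_const)
  have hA := hAo.measurableSet
  set A : Set ℂ := {z : ℂ | a < ‖z‖ ∧ ‖z‖ < b} with hAd
  have hcm : ∀ s θ : ℝ, Complex.polarCoord.symm (s, θ) = circleMap 0 s θ := by
    intro s θ
    rw [Complex.polarCoord_symm_apply, circleMap, Complex.exp_mul_I]
    simp
  have hmeas : Measurable fun p : ℝ × ℝ => ENNReal.ofReal p.1 •
      A.indicator h (Complex.polarCoord.symm p) := by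
    have h1 : Measurable fun p : ℝ × ℝ => Complex.polarCoord.symm p := by
      have : (fun p : ℝ × ℝ => Complex.polarCoord.symm p) =
          fun p : ℝ × ℝ => (p.1 : ℂ) * (Real.cos p.2 + Real.sin p.2 * Complex.I) := by
        funext p
        exact Complex.polarCoord_symm_apply p
      rw [this]
      fun_prop
    exact (ENNReal.measurable_ofReal.comp measurable_fst).mul ((hm.indicator hA).comp h1)
  rw [← lintegral_indicator hA, ← Complex.lintegral_comp_polarCoord_symm, polarCoord_target,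
    Measure.volume_eq_prod, setLIntegral_prod _ hmeas.aemeasurable]
  have hin : ∀ r ∈ Ioi (0 : ℝ), ∫⁻ θ in Ioo (-Real.pi) Real.pi, ENNReal.ofReal (r, θ).1 •
      A.indicator h (Complex.polarCoord.symm (r, θ)) =
      (Ioo a b).indicator (fun s => ENNReal.ofReal s *
        ∫⁻ θ in Ioo 0 (2 * Real.pi), h (circleMap 0 s θ)) r := by
    intro r hr
    have hr0 : (0 : ℝ) < r := hr
    have hnorm : ∀ θ : ℝ, ‖circleMap 0 r θ‖ = r := by
      intro θ
      simp [abs_of_pos hr0]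
    by_cases hrab : r ∈ Ioo a b
    · rw [indicator_of_mem hrab]
      have h1 : ∀ θ : ℝ, ENNReal.ofReal (r, θ).1 •
          A.indicator h (Complex.polarCoord.symm (r, θ)) =
          ENNReal.ofReal r * h (circleMap 0 r θ) := by
        intro θ
        rw [hcm, indicator_of_mem (by
          rw [hAd, mem_ofPred_eq, hnorm]
          exact hrab), smul_eq_mul]
      simp only [h1]
      have hmc : Measurable fun θ : ℝ => h (circleMap 0 r θ) :=
        hm.comp (continuous_circleMap 0 r).measurable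
      rw [lintegral_const_mul _ hmc]
      congr 1
      refine cf_shift (F := fun θ => h (circleMap 0 r θ)) fun θ => ?_
      show h (circleMap 0 r (θ + 2 * Real.pi)) = h (circleMap 0 r θ)
      rw [periodic_circleMap 0 r θ]
    · rw [indicator_of_notMem hrab]
      have h1 : ∀ θ : ℝ, ENNReal.ofReal (r, θ).1 •
          A.indicator h (Complex.polarCoord.symm (r, θ)) = 0 := by
        intro θ
        rw [hcm, indicator_of_notMem (by
          rw [hAd, mem_ofPred_eq, hnorm]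
          exact hrab), smul_zero]
      simp only [h1, lintegral_zero]
  rw [setLIntegral_congr_fun measurableSet_Ioi hin, lintegral_indicator measurableSet_Ioo,
    Measure.restrict_restrict measurableSet_Ioo]
  congr 2
  ext x
  constructor
  · exact fun hx => hx.1
  · exact fun hx => ⟨hx, lt_of_le_of_lt ha hx.1⟩

theorem cf_circle {f : ℂ → ℂ} (hf : DifferentiableOn ℂ f (ball 0 1)) {n : ℕ} (hn : 1 ≤ n)
    {s : ℝ} (hs : 0 < s) (hs1 : s < 1) :
    2 * Real.pi * n * ‖MPV.coef f n‖ * s ^ (n - 1) ≤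
      ∫ θ in (0 : ℝ)..2 * Real.pi, ‖deriv f (circleMap 0 s θ)‖ := by
  obtain ⟨m, rfl⟩ : ∃ m, n = m + 1 := ⟨n - 1, by omega⟩
  have hg : DifferentiableOn ℂ (deriv f) (ball 0 1) := hf.deriv isOpen_ball
  lift s to NNReal using hs.le
  have hsub : closedBall (0 : ℂ) (s : ℝ) ⊆ ball 0 1 := closedBall_subset_ball hs1
  have hps := (hg.diffContOnCl_ball hsub).hasFPowerSeriesOnBall (by exact_mod_cast hs)
  have h1 := hps.factorial_smul (1 : ℂ) m
  have h2 : iteratedDeriv (m + 1) f 0 =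
      m.factorial • (cauchyPowerSeries (deriv f) 0 s m) (fun _ => 1) := by
    rw [h1, iteratedDeriv_succ', iteratedDeriv_eq_iteratedFDeriv]
  have h3 : ‖(cauchyPowerSeries (deriv f) 0 s m) (fun _ => (1 : ℂ))‖ ≤
      ((2 * Real.pi)⁻¹ * ∫ θ in (0 : ℝ)..2 * Real.pi, ‖deriv f (circleMap 0 s θ)‖) *
        |(s : ℝ)|⁻¹ ^ m := by
    refine (ContinuousMultilinearMap.le_opNorm _ _).trans ?_
    rw [Finset.prod_const]
    simpa using norm_cauchyPowerSeries_le (deriv f) 0 s m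
  rw [abs_of_pos hs] at h3
  have hm0 : (0 : ℝ) < m.factorial := by exact_mod_cast m.factorial_pos
  have h4 : ‖MPV.coef f (m + 1)‖ * (m + 1) =
      ‖(cauchyPowerSeries (deriv f) 0 s m) (fun _ => (1 : ℂ))‖ := by
    unfold MPV.coef
    rw [h2, norm_div, nsmul_eq_mul, norm_mul, Nat.factorial_succ]
    push_cast
    rw [norm_mul, Complex.norm_natCast]
    have h5 : ‖((m : ℂ) + 1)‖ = (m : ℝ) + 1 := by
      have : ((m : ℂ) + 1) = ((m + 1 : ℕ) : ℂ) := by push_cast; ring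
      rw [this, Complex.norm_natCast]
      push_cast
      ring
    rw [h5]
    field_simp
  have hsm : (0 : ℝ) < (s : ℝ) ^ m := by positivity
  have hpi := Real.pi_pos
  calc 2 * Real.pi * ((m + 1 : ℕ) : ℝ) * ‖MPV.coef f (m + 1)‖ * (s : ℝ) ^ (m + 1 - 1)
      = 2 * Real.pi * (‖MPV.coef f (m + 1)‖ * (m + 1)) * (s : ℝ) ^ m := by
        push_cast
        ring
    _ ≤ 2 * Real.pi * (((2 * Real.pi)⁻¹ *
          ∫ θ in (0 : ℝ)..2 * Real.pi, ‖deriv f (circleMap 0 s θ)‖) * (s : ℝ)⁻¹ ^ m) *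
          (s : ℝ) ^ m := by
        rw [h4]
        gcongr
    _ = ∫ θ in (0 : ℝ)..2 * Real.pi, ‖deriv f (circleMap 0 s θ)‖ := by
        rw [inv_pow]
        field_simp

theorem cf_pow {n : ℕ} (hn : 4 ≤ n) {s : ℝ} (hs : 1 - 2 / (n : ℝ) < s) :
    1 / 16 ≤ s ^ n := by
  have hn0 : (4 : ℝ) ≤ n := by exact_mod_cast hn
  have hnp : (0 : ℝ) < n := by linarith
  have h2 : 2 / (n : ℝ) ≤ 1 / 2 := by
    rw [div_le_div_iff₀ hnp (by norm_num)]
    linarith
  have hb : (0 : ℝ) ≤ 1 - 2 / (n : ℝ) := by linarith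
  have h1 : 1 / 2 ≤ (1 - 2 / (n : ℝ)) ^ ((n : ℝ) / 4) := by
    have := one_add_mul_self_le_rpow_one_add (s := -(2 / (n : ℝ))) (by linarith)
      (p := (n : ℝ) / 4) (by linarith)
    have e : 1 + (n : ℝ) / 4 * -(2 / (n : ℝ)) = 1 / 2 := by
      field_simp
      norm_num
    rw [e] at this
    rwa [show 1 + -(2 / (n : ℝ)) = 1 - 2 / (n : ℝ) by ring] at this
  have h3 : (1 - 2 / (n : ℝ)) ^ n = ((1 - 2 / (n : ℝ)) ^ ((n : ℝ) / 4)) ^ 4 := by
    rw [← Real.rpow_natCast, ← Real.rpow_natCast, ← Real.rpow_mul hb]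
    congr 1
    push_cast
    ring
  calc (1 : ℝ) / 16 = (1 / 2) ^ 4 := by norm_num
    _ ≤ ((1 - 2 / (n : ℝ)) ^ ((n : ℝ) / 4)) ^ 4 := by gcongr
    _ = (1 - 2 / (n : ℝ)) ^ n := h3.symm
    _ ≤ s ^ n := by gcongr

theorem coef_le {f : ℂ → ℂ} (hf : DifferentiableOn ℂ f (ball 0 1)) {n : ℕ} (hn : 4 ≤ n) :
    ENNReal.ofReal ‖MPV.coef f n‖ ≤ 3 * ∫⁻ z in Om n, ENNReal.ofReal ‖deriv f z‖ := by
  have hn0 : (4 : ℝ) ≤ n := by exact_mod_cast hn
  have hnp : (0 : ℝ) < n := by linarith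
  have hpi := Real.pi_gt_three
  have h2 : 2 / (n : ℝ) ≤ 1 / 2 := by
    rw [div_le_div_iff₀ hnp (by norm_num)]
    linarith
  have hm : Measurable fun z : ℂ => ENNReal.ofReal ‖deriv f z‖ :=
    ENNReal.measurable_ofReal.comp (measurable_deriv f).norm
  have hpol := cf_polar hm (a := 1 - 2 / (n : ℝ)) (b := 1 - 1 / (n : ℝ)) (by linarith)
  have hlow : ∫⁻ _s in Ioo (1 - 2 / (n : ℝ)) (1 - 1 / (n : ℝ)),
      ENNReal.ofReal (2 * Real.pi * n * ‖MPV.coef f n‖ * (1 / 16)) ≤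
      ∫⁻ s in Ioo (1 - 2 / (n : ℝ)) (1 - 1 / (n : ℝ)), ENNReal.ofReal s *
        ∫⁻ θ in Ioo 0 (2 * Real.pi), ENNReal.ofReal ‖deriv f (circleMap 0 s θ)‖ := by
    refine setLIntegral_mono' measurableSet_Ioo fun s hs => ?_
    have hs0 : 0 < s := by linarith [hs.1]
    have hs1 : s < 1 := by
      have : 0 < 1 / (n : ℝ) := by positivity
      linarith [hs.2]
    have hc : Continuous fun θ : ℝ => ‖deriv f (circleMap 0 s θ)‖ := by
      have hg : ContinuousOn (deriv f) (ball 0 1) := (hf.deriv isOpen_ball).continuousOn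
      refine (hg.comp_continuous (continuous_circleMap 0 s) fun θ => ?_).norm
      rw [mem_ball_zero_iff]
      simpa [abs_of_pos hs0] using hs1
    have hint : ∫⁻ θ in Ioo 0 (2 * Real.pi), ENNReal.ofReal ‖deriv f (circleMap 0 s θ)‖ =
        ENNReal.ofReal (∫ θ in (0 : ℝ)..2 * Real.pi, ‖deriv f (circleMap 0 s θ)‖) := by
      rw [intervalIntegral.integral_of_le (by linarith), integral_Ioc_eq_integral_Ioo,
        ofReal_integral_eq_lintegral_ofReal
          (hc.integrableOn_Icc.mono_set Ioo_subset_Icc_self)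
          (Filter.Eventually.of_forall fun θ => norm_nonneg _)]
    rw [hint, ← ENNReal.ofReal_mul hs0.le]
    refine ENNReal.ofReal_le_ofReal ?_
    have h3 := cf_circle hf (n := n) (by omega) hs0 hs1
    have h4 := cf_pow hn hs.1
    have h5 : s * s ^ (n - 1) = s ^ n := by
      rw [← pow_succ']
      congr 1
      omega
    calc 2 * Real.pi * n * ‖MPV.coef f n‖ * (1 / 16)
        ≤ 2 * Real.pi * n * ‖MPV.coef f n‖ * s ^ n := by gcongr
      _ = s * (2 * Real.pi * n * ‖MPV.coef f n‖ * s ^ (n - 1)) := by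
          rw [← h5]
          ring
      _ ≤ s * ∫ θ in (0 : ℝ)..2 * Real.pi, ‖deriv f (circleMap 0 s θ)‖ := by gcongr
  have hconst : ∫⁻ _s in Ioo (1 - 2 / (n : ℝ)) (1 - 1 / (n : ℝ)),
      ENNReal.ofReal (2 * Real.pi * n * ‖MPV.coef f n‖ * (1 / 16)) =
      ENNReal.ofReal (Real.pi / 8 * ‖MPV.coef f n‖) := by
    rw [setLIntegral_const, Real.volume_Ioo, ← ENNReal.ofReal_mul (by positivity)]
    congr 1
    field_simp
    ring
  rw [hconst, ← hpol] at hlow
  calc ENNReal.ofReal ‖MPV.coef f n‖ ≤ ENNReal.ofReal (3 * (Real.pi / 8 * ‖MPV.coef f n‖)) := by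
        refine ENNReal.ofReal_le_ofReal ?_
        have := norm_nonneg (MPV.coef f n)
        nlinarith
    _ = 3 * ENNReal.ofReal (Real.pi / 8 * ‖MPV.coef f n‖) := by
        rw [ENNReal.ofReal_mul (by norm_num)]
        norm_num
    _ ≤ 3 * ∫⁻ z in Om n, ENNReal.ofReal ‖deriv f z‖ := by
        gcongr
        exact hlow

/-- polar coordinates on the annulus `Om n` -/
theorem Om_polar {h : ℂ → ENNReal} (hm : Measurable h) {n : ℕ} (hn : 4 ≤ n) :
    ∫⁻ z in Om n, h z ≤ ∫⁻ s in Ioo (1 - 2 / (n : ℝ)) (1 - 1 / (n : ℝ)),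
      ∫⁻ θ in Ioo 0 (2 * Real.pi), h (circleMap 0 s θ) := by
  have hn0 : (4 : ℝ) ≤ n := by exact_mod_cast hn
  have hnp : (0 : ℝ) < n := by linarith
  have h2 : 2 / (n : ℝ) ≤ 1 / 2 := by
    rw [div_le_div_iff₀ hnp (by norm_num)]
    linarith
  have hpol := cf_polar hm (a := 1 - 2 / (n : ℝ)) (b := 1 - 1 / (n : ℝ)) (by linarith)
  unfold Om
  rw [hpol]
  refine setLIntegral_mono' measurableSet_Ioo fun s hs => ?_
  have hs1 : s ≤ 1 := by
    have : 0 < 1 / (n : ℝ) := by positivity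
    linarith [hs.2]
  calc ENNReal.ofReal s * ∫⁻ θ in Ioo 0 (2 * Real.pi), h (circleMap 0 s θ)
      ≤ 1 * ∫⁻ θ in Ioo 0 (2 * Real.pi), h (circleMap 0 s θ) := by
        gcongr
        rw [← ENNReal.ofReal_one]
        exact ENNReal.ofReal_le_ofReal hs1
    _ = _ := one_mul _

end KUB
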