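import Mathlib
import Pool.Agent.MPV.Defs

set_option autoImplicit false

/-!
# KUB : `K_p ≤ C (p - 1/4)^(-1/2)` (problem MP_a1ed50_an) : definitions (helper7)

`L` is the logarithm of a zero free mean `p`-valent function, rescaled to the disc of radius
`1 - 2/n`. The range of `Re L` is cut into blocks `[jη, (j+1)η)`; `w j` is the reciprocal of
(the maximum of `p/2` and the mean multiplicity in block `j`), and `TT η w k = η ∑_{j<k} w j`.
-/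

open MeasureTheory Metric Set

namespace KUB

/-- Bloch type bound and normalisation -/
structure Blo (L : ℂ → ℂ) : Prop where
  diff : DifferentiableOn ℂ L (ball 0 1)
  bd : ∀ z ∈ ball (0 : ℂ) 1, ‖deriv L z‖ * (1 - ‖z‖ ^ 2) ≤ 2
  zero : (L 0).re = 0

/-- energy of `Re L` in block `j` -/
noncomputable def En (L : ℂ → ℂ) (η : ℝ) (j : ℕ) : ENNReal :=
  ∫⁻ z in {z | z ∈ ball (0 : ℂ) 1 ∧ (j : ℝ) * η ≤ (L z).re ∧ (L z).re < ((j : ℝ) + 1) * η},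
    ENNReal.ofReal (‖deriv L z‖ ^ 2)

/-- weights -/
structure Wt (L : ℂ → ℂ) (η : ℝ) (w : ℕ → ℝ) : Prop where
  pos : 0 < η
  le : η ≤ 1
  nonneg : ∀ j, 0 ≤ w j
  bd : ∀ j, w j ≤ 8
  en : ∀ j, ENNReal.ofReal (w j) * En L η j ≤ ENNReal.ofReal (2 * Real.pi * η)

/-- `η ∑_{j<k} w j` -/
noncomputable def TT (η : ℝ) (w : ℕ → ℝ) (k : ℕ) : ℝ := η * ∑ j ∈ Finset.range k, w j

/-- `TT` at the block of `x` (block `0` for `x < 0`) -/
noncomputable def tt (η : ℝ) (w : ℕ → ℝ) (x : ℝ) : ℝ := TT η w ⌊x / η⌋₊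

/-- the step function with value `w j` on block `j`, `i ≤ j < k`, and `0` elsewhere -/
noncomputable def wd (η : ℝ) (w : ℕ → ℝ) (i k : ℕ) (x : ℝ) : ℝ :=
  ∑ j ∈ Finset.Ico i k, if (j : ℝ) * η ≤ x ∧ x < ((j : ℝ) + 1) * η then w j else 0

/-- the annulus `1 - 2/n < |z| < 1 - 1/n` -/
def Om (n : ℕ) : Set ℂ := {z | 1 - 2 / (n : ℝ) < ‖z‖ ∧ ‖z‖ < 1 - 1 / (n : ℝ)}

end KUB
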